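import Pool.Agent.Gab7b_h87.CY0.Dg_0000
import Pool.Agent.Gab7b_h87.CY0.Dg_0001
import Pool.Agent.Gab7b_h87.CY0.Dg_0010
import Pool.Agent.Gab7b_h87.CY0.Dg_0011
import Pool.Agent.Gab7b_h87.CY0.Dg_0100
import Pool.Agent.Gab7b_h87.CY0.Dg_0101
import Pool.Agent.Gab7b_h87.CY0.Dg_0110
import Pool.Agent.Gab7b_h87.CY0.Dg_0111
import Pool.Agent.Gab7b_h87.CY0.Dg_1000
import Pool.Agent.Gab7b_h87.CY0.Dg_1001
import Pool.Agent.Gab7b_h87.CY0.Dg_1010
import Pool.Agent.Gab7b_h87.CY0.Dg_1011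
import Pool.Agent.Gab7b_h87.CY0.Dg_1100
import Pool.Agent.Gab7b_h87.CY0.Dg_1101
import Pool.Agent.Gab7b_h87.CY0.Dg_1110
import Pool.Agent.Gab7b_h87.CY0.Dg_1111

/-! Certificate; see `Pool/Agent/Gab7b_h87/Ax.lean`. -/

set_option autoImplicit false
set_option maxRecDepth 100000

namespace Pool.Agent.Gab7b_h87.CY0

open Pool.Agent.Gab7b_h87.Sat

/-- the clauses -/
def g : Tr Nat := (.node (.node (.node (.node g_0000 g_0001) (.node g_0010 g_0011)) (.node (.node g_0100 g_0101) (.node g_0110 g_0111))) (.node (.node (.node g_1000 g_1001) (.node g_1010 g_1011)) (.node (.node g_1100 g_1101) (.node g_1110 g_1111))))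

end Pool.Agent.Gab7b_h87.CY0
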