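import Pool.Agent.Gab7b_h87.CY0.DV
import Pool.Agent.Gab7b_h87.CY0.DG

/-! Certificate; see `Pool/Agent/Gab7b_h87/Ax.lean`. -/

set_option autoImplicit false
set_option maxRecDepth 100000

namespace Pool.Agent.Gab7b_h87.CY0

open Pool.Agent.Gab7b_h87.Sat

/-- axioms -/
def l10 : List Ax := [.ex 2528 3 [9] [1,4],
  .gd 3 12 2 0,
  .ex 8215 3 [5] [11,12],
  .gd 8 1 2 2,
  .ex 107 9 [7] [2,4],
  .ex 6151 13 [4] [7,10],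
  .ex 12313 2 [9] [1,8],
  .g3 14869,
  .ud 104 100 3 2 9,
  .ex 13442 2 [0] [4,11],
  .ex 4993 11 [1] [4,6],
  .ex 5889 3 [2] [7,13],
  .ex 488 2 [0] [9,11],
  .ex 47 4 [12] [6,13],
  .ex 110 7 [12] [0,4],
  .gd 17 12 1 1,
  .gd 105 105 1 2,
  .ex 13952 8 [4] [0,11],
  .g2 10391,
  .ex 109 4 [1] [8,11],
  .g2 253,
  .ex 744 11 [13] [4,8],
  .ex 3008 10 [13] [5,12],
  .g1 14351,
  .ex 13184 10 [4] [1,11],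
  .ex 15616 9 [4] [0,2],
  .g1 14725,
  .ud 7 11 2 0 7,
  .ex 13184 11 [6] [0,10],
  .ex 61 1 [11] [6,8],
  .ex 13826 11 [3] [0,8],
  .ex 968 11 [5] [1,10],
  .ex 10247 12 [4] [9,10],
  .ex 62 0 [6] [10,12],
  .ex 12421 4 [8] [1,10],
  .ex 7552 9 [6] [0,13],
  .ex 3008 3 [1] [5,10],
  .ex 2528 2 [12] [9,10],
  .ex 13826 8 [4] [0,7],
  .ex 364 4 [7] [10,11],
  .ex 3968 6 [12] [4,5],
  .ex 13444 9 [8] [1,4],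
  .nw 104 97 35 22 5,
  .ex 2976 12 [13] [3,10],
  .gd 113 114 2 2,
  .ex 361 9 [7] [4,10],
  .ex 13057 11 [7] [1,4],
  .gd 8 16 4 6,
  .ud 82 88 1 3 1,
  .gd 0 0 0 0,
  .ex 14341 10 [8] [1,5],
  .ex 14080 11 [4] [0,3],
  .ex 118 3 [7] [0,8],
  .ex 115 8 [11] [2,3],
  .ex 472 5 [9] [1,2],
  .gd 72 72 2 4,
  .ex 110 0 [11] [4,7],
  .g3 3025,
  .ex 2408 7 [0] [1,2],
  .ex 11267 2 [7] [9,12],
  .ex 12817 11 [8] [1,3],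
  .sx 4064 9 [0,1,2,3,4,12,13],
  .ex 744 4 [10] [1,8],
  .g1 15881,
  .ex 6785 1 [2] [8,13],
  .gd 9 9 1 4,
  .ex 2102 3 [0] [6,10],
  .no 103 103 8 8,
  .ex 8207 4 [11] [8,12],
  .ex 1984 11 [12] [0,4],
  .ex 87 3 [5] [11,13],
  .gd 1 8 4 1,
  .ex 12803 10 [7] [5,11],
  .ex 5127 3 [9] [7,13],
  .nu 7 7 100 104 2,
  .g1 13957,
  .ex 9664 9 [12] [2,5],
  .ex 752 3 [1] [8,10],
  .ud 112 84 5 2 9,
  .ex 13441 2 [4] [1,8],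
  .ex 5056 10 [1] [11,13],
  .ex 13318 3 [8] [0,9],
  .ex 13057 2 [7] [10,11],
  .ud 19 7 1 0 7,
  .g2 2017,
  .gd 44 112 6 2,
  .ex 47 4 [6] [11,12],
  .ex 2416 7 [0] [1,3],
  .ex 4125 5 [11] [1,13],
  .ex 976 10 [12] [2,5],
  .ex 3520 9 [1] [5,12],
  .gd 8 32 5 4,
  .ex 5568 13 [2] [9,11],
  .sx 1150 1 [0,7,8,9,11,12,13],
  .ex 968 4 [2] [5,11],
  .ex 12549 11 [9] [1,4],
  .ex 10688 9 [5] [2,12],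
  .ex 13832 0 [8] [1,2],
  .g2 1401,
  .ex 10259 12 [9] [2,7],
  .ex 14850 10 [8] [0,4],
  .g1 9263,
  .ex 976 5 [0] [10,12],
  .gd 8 2 1 2,
  .gd 29 39 5 4,
  .gd 7 42 4 4,
  .gd 40 72 6 4,
  .ex 2500 3 [5] [10,12],
  .gd 32 8 0 1,
  .ud 9 17 0 0 7,
  .ex 7040 6 [2] [10,13],
  .ex 13442 2 [0] [4,8],
  .ex 632 8 [11] [1,10],
  .ex 5251 9 [8] [2,13],
  .ex 8207 10 [9] [4,12],
  .ex 6016 13 [1] [4,6],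
  .ex 2784 8 [10] [3,12],
  .ud 74 88 3 3 10,
  .ex 14339 2 [10] [4,5],
  .sx 9247 4 [5,6,7,8,9,11,12],
  .ex 13826 0 [3] [8,11],
  .ex 376 2 [13] [1,7],
  .ud 21 11 2 1 2,
  .gd 4 16 3 1,
  .ex 14465 9 [8] [1,2],
  .ex 14850 10 [8] [0,2],
  .ex 12929 11 [10] [1,8],
  .ex 3079 12 [3] [5,13],
  .ex 3520 9 [2] [4,5],
  .ex 3296 8 [9] [2,4],
  .ex 488 4 [2] [9,12],
  .ex 7808 8 [6] [0,4],
  .wd 11 25 3 3 7,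
  .ex 372 7 [9] [1,3],
  .ex 14080 7 [2] [0,3],
  .ex 14594 0 [4] [7,9],
  .ex 31 12 [11] [6,8],
  .ex 10262 0 [5] [10,12],
  .ex 15616 1 [4] [0,9],
  .ex 9223 7 [9] [11,12],
  .g2 15371,
  .ex 2784 8 [13] [1,3],
  .g1 2365,
  .ex 12313 9 [10] [1,2],
  .gd 96 96 2 2,
  .ex 752 2 [11] [8,10],
  .ex 13826 3 [4] [0,11],
  .gd 112 84 2 5,
  .wd 21 13 2 2 10,
  .ex 3008 3 [13] [10,12],
  .g1 13459,
  .ex 14465 9 [8] [1,10],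
  .g1 9295,
  .ex 13696 11 [3] [6,9],
  .ex 14342 4 [9] [0,8],
  .nu 25 26 104 97 3,
  .ex 236 8 [0] [1,11],
  .no 29 27 96 96,
  .ex 13057 7 [3] [10,11],
  .ex 15616 9 [7] [2,4],
  .ex 124 1 [0] [9,10],
  .ex 2528 9 [10] [1,2],
  .ex 12307 11 [8] [3,9],
  .ex 9152 5 [1] [11,12],
  .ex 12310 0 [9] [3,11],
  .gd 100 100 3 3,
  .ex 9258 2 [11] [0,4],
  .ex 14339 2 [4] [7,9],
  .ex 122 7 [10] [0,2],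
  .ex 59 2 [13] [8,11],
  .ex 364 4 [7] [10,12],
  .ud 11 19 0 0 7,
  .ex 2071 13 [10] [8,12],
  .ex 59 2 [10] [6,13],
  .ex 14354 2 [5] [0,9],
  .ex 348 5 [7] [10,11],
  .ex 8219 2 [10] [11,12],
  .g1 13339,
  .gd 0 0 5 4,
  .ex 47 6 [11] [4,12],
  .g2 4221,
  .ex 2078 5 [0] [6,10],
  .ud 21 25 2 3 2,
  .ex 186 9 [8] [2,6],
  .ex 1384 4 [2] [7,11],
  .gd 3 3 5 3,
  .tx 1 16,
  .ex 5253 8 [9] [1,13],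
  .gd 3 3 3 2,
  .ex 1936 6 [12] [5,13],
  .ex 9260 1 [11] [4,6],
  .ex 12307 7 [10] [2,11],
  .gd 104 50 1 6,
  .ex 1144 8 [7] [2,9],
  .ex 9227 2 [11] [4,12],
  .ex 3968 5 [6] [1,13],
  .ex 3520 9 [5] [4,12],
  .ex 1077 3 [1] [6,8],
  .ex 4119 11 [13] [9,10],
  .ex 12295 4 [3] [5,11],
  .ex 124 1 [7] [0,12],
  .ex 13952 1 [2] [6,8],
  .ex 496 3 [0] [9,10],
  .ex 118 3 [10] [0,11],
  .ex 2528 3 [12] [9,10],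
  .ex 1504 9 [0] [4,11],
  .g2 12935,
  .g1 14981,
  .ex 484 4 [3] [1,10],
  .ex 13315 11 [9] [2,5],
  .ex 14849 10 [8] [2,3],
  .ex 8222 12 [11] [0,5],
  .ex 244 8 [10] [3,11],
  .gr 19 19,
  .gd 96 80 3 1,
  .gd 11 19 4 3,
  .ex 1252 3 [0] [4,8],
  .ex 10247 3 [5] [8,10],
  .ex 12309 3 [8] [1,7],
  .ud 7 7 2 1 8,
  .gd 96 12 4 5,
  .ex 12419 11 [9] [2,3],
  .ex 5824 8 [5] [3,13],
  .ex 110 4 [11] [0,7],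
  .ex 13828 1 [4] [0,8],
  .g2 13341,
  .gd 72 72 5 1,
  .no 7 7 88 112,
  .ex 7040 10 [1] [2,13],
  .u0 5,
  .ex 14849 4 [2] [1,7],
  .ex 3968 6 [2] [12,13],
  .no 25 19 100 44,
  .ex 9731 3 [4] [11,12],
  .ex 15361 9 [4] [1,8],
  .ex 6277 13 [1] [8,9],
  .g3 13579,
  .ex 944 6 [10] [2,3],
  .ex 110 0 [10] [4,11],
  .sx 1404 8 [0,1,7,9,11,12,13],
  .wd 88 84 3 4 9,
  .ex 5056 13 [3] [10,11],
  .no 47 55 64 64,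
  .gr 72 48,
  .ex 12314 2 [10] [0,11],
  .ex 61 1 [10] [6,12],
  .ex 3904 5 [2] [7,12],
  .g1 14613,
  .gd 104 97 0 4,
  .ex 364 10 [11] [4,7],
  .ud 9 24 3 4 3,
  .gd 17 9 2 2,
  .ex 4552 5 [4] [9,10],
  .ex 14976 0 [4] [6,8],
  .ex 496 3 [1] [2,9],
  .gd 10 3 2 3,
  .ex 496 3 [2] [1,10],
  .ex 10247 12 [10] [4,6],
  .ex 1053 12 [9] [1,5],
  .ex 12309 11 [8] [1,3],
  .nu 22 7 104 97 7,
  .ex 8231 3 [4] [9,10],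
  .wd 13 7 2 2 0,
  .ex 62 0 [6] [11,12],
  .gd 4 1 4 1,
  .ex 59 2 [13] [6,9],
  .ex 484 4 [0] [1,3],
  .ex 117 8 [9] [1,3],
  .ex 47 4 [10] [6,8],
  .nw 7 7 112 98 8,
  .ex 7552 9 [6] [3,13],
  .ex 47 4 [11] [10,13],
  .ud 5 5 2 0 7,
  .g1 15395,
  .ex 1144 0 [2] [8,9],
  .g2 14855,
  .ex 8237 4 [11] [1,10],
  .ex 1069 4 [6] [1,13],
  .gr 32 8,
  .ex 9223 7 [4] [11,12],
  .ex 248 8 [11] [1,9],
  .gd 114 99 2 2,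
  .ex 110 8 [9] [0,4],
  .ex 14850 7 [8] [3,10],
  .ex 1744 8 [12] [5,11],
  .ex 12299 10 [8] [2,4],
  .ex 11777 8 [3] [1,12],
  .gd 1 1 1 3,
  .ex 12313 1 [2] [10,11],
  .ex 1488 2 [3] [11,12],
  .gd 5 24 1 5,
  .g1 10343,
  .ex 3776 12 [1] [5,8],
  .ex 122 7 [8] [0,2],
  .gd 80 24 1 5,
  .ud 100 100 6 2 6,
  .ex 5056 5 [13] [10,11],
  .sx 9712 13 [0,1,2,3,9,11,12],
  .ex 968 5 [4] [11,12],
  .ex 14341 9 [8] [7,10],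
  .ex 13057 1 [3] [7,11],
  .wd 112 76 5 3 9,
  .sx 2537 0 [1,2,4,9,10,12,13],
  .ex 7171 13 [4] [2,9],
  .gd 106 113 2 1,
  .gd 96 48 1 1,
  .g1 12573,
  .ex 2356 3 [6] [1,13],
  .ex 7040 10 [13] [4,6],
  .ex 12421 1 [8] [3,11],
  .ud 80 96 6 5 6,
  .g2 13579,
  .ex 4111 9 [11] [10,13],
  .ex 5253 8 [4] [1,13],
  .ex 47 4 [10] [6,9],
  .ex 94 5 [11] [0,10],
  .ud 17 9 0 3 0,
  .ex 5568 9 [5] [1,13],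
  .ex 14468 0 [1] [8,10],
  .ex 1380 4 [3] [1,7],
  .ex 7040 10 [13] [2,3],
  .gd 18 10 2 4,
  .ex 8327 10 [8] [9,12],
  .ex 31 12 [9] [10,13],
  .gd 2 32 0 1,
  .gd 54 39 3 4,
  .ex 2288 2 [0] [3,8],
  .ex 3408 7 [2] [3,5],
  .ex 10275 12 [10] [2,3],
  .ex 968 5 [13] [11,12],
  .ex 1384 4 [2] [0,9],
  .no 21 28 104 97,
  .gd 7 7 5 3,
  .ex 1144 8 [9] [2,13],
  .ex 9223 7 [8] [11,12],
  .gd 96 24 4 1,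
  .gd 97 104 4 1,
  .ex 2528 9 [0] [2,3],
  .ex 13317 1 [7] [9,11],
  .ex 15362 2 [5] [0,9],
  .ex 4960 3 [1] [7,13],
  .ex 107 4 [11] [2,10],
  .g1 2143,
  .ex 348 5 [11] [7,10],
  .ex 12817 11 [1] [8,10],
  .ex 12433 9 [11] [1,2],
  .ex 632 1 [11] [7,8],
  .g2 7105,
  .ex 1952 12 [13] [1,6],
  .ex 632 7 [1] [8,10],
  .ex 2404 3 [4] [9,10],
  .ex 12314 9 [10] [0,2],
  .ud 25 13 3 2 9,
  .ex 744 4 [12] [8,13],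
  .ex 13825 11 [1] [3,8]]

theorem a10 : axchk ⟨7, 127, 55, [(3, 3), (4, 2), (5, 1), (6, 0)], [12439, 3944], [], [1, 2]⟩ (Tr.get ⟨9, 0, 0, 0⟩ v) (Tr.get 0 g) l10 10355 10000 = true := by
  decide +kernel

end Pool.Agent.Gab7b_h87.CY0
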